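import Pool.Agent.K3h46.AS.Stm3
import Pool.Agent.K3h45.AS.LAU

/-!
# Project AS3, brick LAUW: the homomorphism from the coordinate ring over `F((1 / t))`, with weights
-/

set_option autoImplicit false

namespace Pool.Agent.K3h23.AS

open Pool.Agent.K3h46.AS Pool.Agent.K3h45.AS

section

variable {F κ : Type} [Field F] [Field κ]

/-- The homomorphism `F((T)) → κ((T))`, `T ↦ c T`. -/
noncomputable def scL (g : F →+* κ) (c : κ) (hc : c ≠ 0) : LaurentSeries F →+* LaurentSeries κ where
  toFun z := ⟨fun n => g (z.coeff n) * c ^ n, z.isPWO_support.mono (by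
    intro n hn h
    apply hn
    change g (z.coeff n) * c ^ n = 0
    rw [h, map_zero, zero_mul])⟩
  map_one' := by
    ext n
    change g ((1 : LaurentSeries F).coeff n) * c ^ n = (1 : LaurentSeries κ).coeff n
    by_cases h : n = 0
    · subst h; simp
    · simp [HahnSeries.coeff_one, h]
  map_mul' a b := by
    ext n
    change g ((a * b).coeff n) * c ^ n = _
    rw [HahnSeries.coeff_mul, HahnSeries.coeff_mul, map_sum, Finset.sum_mul]
    refine Finset.sum_congr ?_ fun ij hij => ?_
    · ext ij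
      simp only [Finset.mem_antidiagonal, HahnSeries.mem_support]
      have h1 : ∀ (z : LaurentSeries F) (k : ℤ), g (z.coeff k) * c ^ k ≠ 0 ↔ z.coeff k ≠ 0 := by
        intro z k
        rw [mul_ne_zero_iff, map_ne_zero_iff g g.injective]
        exact ⟨fun h => h.1, fun h => ⟨h, zpow_ne_zero _ hc⟩⟩
      rw [h1, h1]
    · have h2 := (Finset.mem_antidiagonal.1 hij).2.2
      change _ = g (a.coeff ij.1) * c ^ ij.1 * (g (b.coeff ij.2) * c ^ ij.2)
      rw [← h2, zpow_add₀ hc, map_mul]
      ring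
  map_zero' := by
    ext n
    change g ((0 : LaurentSeries F).coeff n) * c ^ n = 0
    rw [HahnSeries.coeff_zero, map_zero, zero_mul]
  map_add' a b := by
    ext n
    change g ((a + b).coeff n) * c ^ n = g (a.coeff n) * c ^ n + g (b.coeff n) * c ^ n
    rw [HahnSeries.coeff_add, map_add, add_mul]

theorem scL_coeff (g : F →+* κ) (c : κ) (hc : c ≠ 0) (z : LaurentSeries F) (n : ℤ) :
    (scL g c hc z).coeff n = g (z.coeff n) * c ^ n := rfl

/-- The homomorphism `κ((T)) → κ((s))`, `T ↦ s ^ m`. -/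
noncomputable def emL (m : ℕ) (hm : 0 < m) : LaurentSeries κ →+* LaurentSeries κ :=
  HahnSeries.embDomainRingHom (AddMonoidHom.mulLeft (m : ℤ))
    (fun a b h => by
      have h1 : (m : ℤ) * a = m * b := h
      exact mul_left_cancel₀ (by exact_mod_cast hm.ne') h1)
    (fun a b => by
      change (m : ℤ) * a ≤ m * b ↔ a ≤ b
      exact mul_le_mul_iff_right₀ (by exact_mod_cast hm))

theorem emL_coeff (m : ℕ) (hm : 0 < m) (z : LaurentSeries κ) (n : ℤ) :
    (emL m hm z).coeff (m * n) = z.coeff n := by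
  unfold emL HahnSeries.embDomainRingHom
  exact HahnSeries.embDomain_coeff (f := ⟨⟨(AddMonoidHom.mulLeft (m : ℤ)), _⟩, _⟩)

theorem emL_coeff_zero (m : ℕ) (hm : 0 < m) (z : LaurentSeries κ) (n : ℤ) (hn : ¬ (m : ℤ) ∣ n) :
    (emL m hm z).coeff n = 0 := by
  unfold emL HahnSeries.embDomainRingHom
  refine HahnSeries.embDomain_of_notMem_range ?_
  rintro ⟨k, hk⟩
  exact hn ⟨k, hk.symm⟩

theorem emL_single (m : ℕ) (hm : 0 < m) (n : ℤ) (c : κ) :
    emL m hm (HahnSeries.single n c) = HahnSeries.single (m * n) c := by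
  unfold emL HahnSeries.embDomainRingHom
  exact HahnSeries.embDomain_single

theorem emL_C (m : ℕ) (hm : 0 < m) (c : κ) :
    emL m hm (HahnSeries.C c) = HahnSeries.C c := by
  rw [HahnSeries.C_apply, emL_single, mul_zero]

/-- The homomorphism `F((T)) → κ((s))`, `T ↦ u ^ (- al) s ^ m`. -/
noncomputable def baseHom (W : Wt) (ι : Polynomial F →+* κ) (hu : ι Polynomial.X ≠ 0) :
    LaurentSeries F →+* LaurentSeries κ :=
  (emL W.m W.hm).comp (scL (ι.comp Polynomial.C) ((ι Polynomial.X) ^ W.al)⁻¹
    (inv_ne_zero (pow_ne_zero _ hu)))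

/-- The homomorphism `F((T))[X] → κ((s))`, `T ↦ u ^ (- al) s ^ m`, `X ↦ u ^ be s ^ (- n)`. -/
noncomputable def wHom (W : Wt) (ι : Polynomial F →+* κ) (hu : ι Polynomial.X ≠ 0) :
    Polynomial (LaurentSeries F) →+* LaurentSeries κ :=
  Polynomial.eval₂RingHom (baseHom W ι hu)
    (HahnSeries.single (-(W.n : ℤ)) ((ι Polynomial.X) ^ W.be))

theorem wHom_injective (W : Wt) (ι : Polynomial F →+* κ) (hι : Function.Injective ι)
    (hu : ι Polynomial.X ≠ 0) : Function.Injective (wHom W ι hu) := by
  classical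
  rw [injective_iff_map_eq_zero]
  intro b hb
  have hm : (0 : ℤ) < W.m := by exact_mod_cast W.hm
  have hab : ((W.al : ℤ) * W.n) = W.be * W.m + 1 := by exact_mod_cast W.hab
  set D := b.natDegree with hD
  -- the coefficients
  have hsum : ∀ N : ℤ, ∑ k ∈ Finset.range (D + 1),
      ((baseHom W ι hu (b.coeff k)).coeff (N + k * W.n)) * ((ι Polynomial.X) ^ W.be) ^ k = 0 := by
    intro N
    have h1 : (wHom W ι hu b).coeff N = ∑ k ∈ Finset.range (D + 1),
        ((baseHom W ι hu (b.coeff k)).coeff (N + k * W.n)) * ((ι Polynomial.X) ^ W.be) ^ k := by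
      unfold wHom
      rw [Polynomial.coe_eval₂RingHom, Polynomial.eval₂_eq_sum_range, HahnSeries.coeff_sum]
      refine Finset.sum_congr rfl fun k _ => ?_
      rw [HahnSeries.single_pow]
      have h2 : N = (N + k * W.n) + (k • (-(W.n : ℤ))) := by
        simp
      conv_lhs => rw [h2]
      rw [HahnSeries.coeff_mul_single_add]
    rw [← h1, hb, HahnSeries.coeff_zero]
  -- the coefficient of `b` which occurs in the `k`-th term
  set A : ℤ → ℕ → F := fun N k =>
    if (W.m : ℤ) ∣ N + k * W.n then (b.coeff k).coeff ((N + k * W.n) / W.m) else 0 with hA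
  set e : ℤ → ℕ → ℤ := fun N k => (W.be : ℤ) * k - W.al * ((N + k * W.n) / W.m) with he
  have hterm : ∀ (N : ℤ) (k : ℕ), ((baseHom W ι hu (b.coeff k)).coeff (N + k * W.n)) *
      ((ι Polynomial.X) ^ W.be) ^ k = ι (Polynomial.C (A N k)) * (ι Polynomial.X) ^ (e N k) := by
    intro N k
    unfold baseHom
    rw [RingHom.comp_apply]
    by_cases hd : (W.m : ℤ) ∣ N + k * W.n
    · obtain ⟨i, hi⟩ := hd
      have hi2 : (N + k * W.n) / W.m = i := by
        rw [hi]
        exact Int.mul_ediv_cancel_left _ hm.ne'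
      have hAk : A N k = (b.coeff k).coeff i := by
        simp only [hA]
        rw [if_pos ⟨i, hi⟩, hi2]
      have hek : e N k = (W.be : ℤ) * k - W.al * i := by
        simp only [he]
        rw [hi2]
      rw [hAk, hek, hi, emL_coeff, scL_coeff, RingHom.comp_apply, mul_assoc]
      congr 1
      rw [zpow_sub₀ hu, zpow_mul, zpow_mul, zpow_natCast, zpow_natCast, zpow_natCast, inv_zpow]
      rw [div_eq_mul_inv, mul_comm]
    · have hAk : A N k = 0 := by
        simp only [hA]
        rw [if_neg hd]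
      rw [hAk, emL_coeff_zero _ _ _ _ hd, map_zero, map_zero, zero_mul, zero_mul]
  refine Polynomial.ext fun k0 => ?_
  rw [Polynomial.coeff_zero]
  rcases Nat.lt_or_ge D k0 with hk0 | hk0
  · exact Polynomial.coeff_eq_zero_of_natDegree_lt hk0
  ext i0
  rw [HahnSeries.coeff_zero]
  obtain ⟨N, hN⟩ : ∃ N : ℤ, N = (W.m : ℤ) * i0 - k0 * W.n := ⟨_, rfl⟩
  have hN0 : N + k0 * W.n = W.m * i0 := by rw [hN]; ring
  have hA0 : A N k0 = (b.coeff k0).coeff i0 := by
    simp only [hA]
    rw [if_pos ⟨i0, hN0⟩, hN0, Int.mul_ediv_cancel_left _ hm.ne']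
  have he0 : e N k0 = (W.be : ℤ) * k0 - W.al * i0 := by
    simp only [he]
    rw [hN0, Int.mul_ediv_cancel_left _ hm.ne']
  -- a bound for the exponents
  obtain ⟨M, hM⟩ : ∃ M : ℕ, ∀ k ∈ Finset.range (D + 1), 0 ≤ e N k + M := by
    refine ⟨∑ k ∈ Finset.range (D + 1), (e N k).natAbs, fun k hk => ?_⟩
    have h1 : (e N k).natAbs ≤ ∑ k ∈ Finset.range (D + 1), (e N k).natAbs :=
      Finset.single_le_sum (f := fun k => (e N k).natAbs) (fun _ _ => Nat.zero_le _) hk
    have h2 : -((e N k).natAbs : ℤ) ≤ e N k := by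
      rw [Int.natCast_natAbs]
      exact neg_abs_le _
    have h3 : ((e N k).natAbs : ℤ) ≤ ((∑ k ∈ Finset.range (D + 1), (e N k).natAbs : ℕ) : ℤ) := by
      exact_mod_cast h1
    linarith
  have h4 : ι (∑ k ∈ Finset.range (D + 1),
      Polynomial.C (A N k) * Polynomial.X ^ (e N k + M).toNat) = 0 := by
    rw [map_sum]
    have h5 : ∀ k ∈ Finset.range (D + 1),
        ι (Polynomial.C (A N k) * Polynomial.X ^ (e N k + M).toNat) =
        (((baseHom W ι hu (b.coeff k)).coeff (N + k * W.n)) *
          ((ι Polynomial.X) ^ W.be) ^ k) * (ι Polynomial.X) ^ M := by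
      intro k hk
      rw [hterm N k, map_mul, map_pow, mul_assoc]
      congr 1
      rw [← zpow_natCast, ← zpow_natCast, ← zpow_add₀ hu, Int.toNat_of_nonneg (hM k hk)]
    rw [Finset.sum_congr rfl h5, ← Finset.sum_mul, hsum N, zero_mul]
  have h7 := hι (h4.trans (map_zero ι).symm)
  have h8 := congrArg (fun q : Polynomial F => q.coeff (e N k0 + M).toNat) h7
  simp only [Polynomial.finsetSum_coeff, Polynomial.coeff_C_mul, Polynomial.coeff_X_pow,
    Polynomial.coeff_zero] at h8
  rw [Finset.sum_eq_single k0] at h8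
  · rw [if_pos rfl, mul_one, hA0] at h8
    exact h8
  · intro k hk hkk
    by_cases hAk : A N k = 0
    · rw [hAk, zero_mul]
    have hd : (W.m : ℤ) ∣ N + k * W.n := by
      by_contra hd
      apply hAk
      simp only [hA]
      rw [if_neg hd]
    obtain ⟨i, hi⟩ := hd
    have hek : e N k = (W.be : ℤ) * k - W.al * i := by
      simp only [he]
      rw [hi, Int.mul_ediv_cancel_left _ hm.ne']
    rw [if_neg, mul_zero]
    intro h9
    have h10 : e N k0 + M = e N k + M := by
      have h11 := hM k hk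
      have h12 := hM k0 (Finset.mem_range.2 (by omega))
      omega
    have h13 : (W.be : ℤ) * k0 - W.al * i0 = (W.be : ℤ) * k - W.al * i := by
      rw [← he0, ← hek]
      linarith
    have h14 : (W.m : ℤ) * i - k * W.n = W.m * i0 - k0 * W.n := by
      linarith
    have h15 : (k : ℤ) - k0 = 0 := by
      linear_combination (-(k : ℤ) + k0) * hab + (W.m : ℤ) * h13 + (-(W.al : ℤ)) * h14
    exact hkk (by exact_mod_cast (sub_eq_zero.1 h15))
  · intro h
    exact absurd (Finset.mem_range.2 (by omega)) h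

end

theorem t_LAUW : S_LAUW := by
  intro p hp W F _ _ f hdp hdeg' hlead κ _ _ ι hι z hz
  have hp0 : 0 < p := hp.out.pos
  have hd : 0 < W.d := Nat.mul_pos (Nat.mul_pos W.hg W.hm) W.hn
  have hdlt : W.d < p := by
    have := Nat.le_of_dvd (by have := hp.out.two_le; omega) hdp
    omega
  have hu : ι Polynomial.X ≠ 0 := fun h => Polynomial.X_ne_zero (hι (h.trans (map_zero ι).symm))
  have hl : ι ((toZ W f).coeff W.d) ≠ 0 := fun h => hlead (hι (h.trans (map_zero ι).symm))
  have hzc : z.coeff (-(p : ℤ)) ≠ 0 := by rw [hz.top]; exact pow_ne_zero _ hl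
  have hz0 : z ≠ 0 := fun h => hzc (by rw [h, HahnSeries.coeff_zero])
  have hzo : z.order = -(p : ℤ) := by
    have h1 := HahnSeries.order_le_of_coeff_ne_zero hzc
    have h2 : ¬ z.order < -(p : ℤ) := fun h =>
      (HahnSeries.coeff_order_eq_zero.not.2 hz0) (hz.low _ h)
    omega
  set τ : LaurentSeries κ := z⁻¹ with hτdef
  have hτ0 : τ ≠ 0 := inv_ne_zero hz0
  have hτo : τ.order = (p : ℤ) := by rw [hτdef, order_inv hz0, hzo, neg_neg]
  have hτ : 0 < τ.orderTop := by
    rw [HahnSeries.zero_lt_orderTop_iff hτ0, hτo]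
    exact_mod_cast hp0
  obtain ⟨j, hjC, hjX, hj⟩ := exists_jL hτ (p : ℤ) ⟨hτ0, by rw [hτo]⟩
  set Θ : Polynomial (LaurentSeries F) →+* LaurentSeries κ := j.comp (wHom W ι hu) with hΘ
  have hjs : ∀ (c : κ) (k : ℕ), j (HahnSeries.single (-(k : ℤ)) c) = HahnSeries.C c * z ^ k := by
    intro c k
    have h1 : (HahnSeries.single (-(k : ℤ)) c : LaurentSeries κ) =
        HahnSeries.C c * ((HahnSeries.single (1 : ℤ) (1 : κ))⁻¹) ^ k := by
      rw [HahnSeries.inv_single, inv_one, HahnSeries.single_pow, one_pow, HahnSeries.C_apply,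
        HahnSeries.single_mul_single, zero_add, mul_one]
      congr 1
      simp
    rw [h1, map_mul, map_pow, map_inv₀, hjC, hjX, hτdef, inv_inv]
  have hΘa : ∀ a : MvPolynomial (Fin 2) F, Θ (toInf a) = evz ι z (toZ W a) := by
    intro a
    have h : Θ.comp toInf = (evz ι z).comp (toZ W) := by
      refine MvPolynomial.ringHom_ext (fun c => ?_) (fun i => ?_)
      · change Θ (toInf (MvPolynomial.C c)) = evz ι z (toZ W (MvPolynomial.C c))
        rw [toZ_C]
        unfold toInf evz
        rw [MvPolynomial.coe_eval₂Hom, MvPolynomial.eval₂_C, Polynomial.coe_eval₂RingHom,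
          Polynomial.eval₂_C]
        change Θ (Polynomial.C (HahnSeries.C c)) = HahnSeries.C (ι (Polynomial.C c))
        rw [hΘ, RingHom.comp_apply]
        unfold wHom
        rw [Polynomial.coe_eval₂RingHom, Polynomial.eval₂_C]
        unfold baseHom
        rw [RingHom.comp_apply]
        have h1 : scL (ι.comp Polynomial.C) ((ι Polynomial.X) ^ W.al)⁻¹
            (inv_ne_zero (pow_ne_zero _ hu)) (HahnSeries.C c) = HahnSeries.C (ι (Polynomial.C c)) := by
          ext k
          rw [scL_coeff]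
          by_cases hk : k = 0
          · subst hk; simp
          · simp [hk]
        rw [h1, emL_C, hjC]
      · fin_cases i
        · change Θ (toInf (MvPolynomial.X 0)) = evz ι z (toZ W (MvPolynomial.X 0))
          rw [toZ_X0]
          unfold toInf evz
          rw [MvPolynomial.coe_eval₂Hom, MvPolynomial.eval₂_X, Polynomial.coe_eval₂RingHom,
            Polynomial.eval₂_mul, Polynomial.eval₂_C, Polynomial.eval₂_X_pow]
          change Θ Polynomial.X = HahnSeries.C (ι (Polynomial.X ^ W.be)) * z ^ W.n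
          rw [hΘ, RingHom.comp_apply]
          unfold wHom
          rw [Polynomial.coe_eval₂RingHom, Polynomial.eval₂_X, hjs, map_pow ι]
        · change Θ (toInf (MvPolynomial.X 1)) = evz ι z (toZ W (MvPolynomial.X 1))
          rw [toZ_X1]
          unfold toInf evz
          rw [MvPolynomial.coe_eval₂Hom, MvPolynomial.eval₂_X, Polynomial.coe_eval₂RingHom,
            Polynomial.eval₂_mul, Polynomial.eval₂_C, Polynomial.eval₂_X_pow]
          change Θ (Polynomial.C (HahnSeries.single (-1 : ℤ) (1 : F))) =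
            HahnSeries.C (ι (Polynomial.X ^ W.al)) * z ^ W.m
          rw [hΘ, RingHom.comp_apply]
          unfold wHom
          rw [Polynomial.coe_eval₂RingHom, Polynomial.eval₂_C]
          unfold baseHom
          rw [RingHom.comp_apply]
          have h1 : scL (ι.comp Polynomial.C) ((ι Polynomial.X) ^ W.al)⁻¹
              (inv_ne_zero (pow_ne_zero _ hu)) (HahnSeries.single (-1 : ℤ) (1 : F)) =
              HahnSeries.single (-1 : ℤ) ((ι Polynomial.X) ^ W.al) := by
            ext k
            rw [scL_coeff]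
            by_cases hk : k = -1
            · subst hk
              simp
            · simp [HahnSeries.coeff_single_of_ne hk]
          have h2 : (W.m : ℤ) * (-1) = -(W.m : ℤ) := by ring
          rw [h1, emL_single, h2, hjs, map_pow ι]
    exact congrArg (fun q => q a) h
  have hΘord : ∀ a, a ≠ 0 → OrdIn (p : ℤ) (Θ a) := by
    intro a ha
    rw [hΘ, RingHom.comp_apply]
    exact hj _ (fun h => ha (wHom_injective W ι hι hu (h.trans (map_zero _).symm)))
  set w : LaurentSeries κ := HahnSeries.single (-(W.d : ℤ)) (ι ((toZ W f).coeff W.d) ^ p) with hw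
  have hw0 : w ≠ 0 := by
    rw [hw]
    exact HahnSeries.single_ne_zero (pow_ne_zero _ hl)
  have hwo : w.order = -(W.d : ℤ) := by
    rw [hw]
    exact HahnSeries.order_single (pow_ne_zero _ hl)
  have heq : w ^ p - w = Θ (toInf f) := by rw [hΘa, hz.eq]
  have hmonic : (eqn p (toInf f)).Monic := by
    unfold eqn
    rw [sub_sub]
    refine Polynomial.monic_X_pow_sub ?_
    refine lt_of_le_of_lt (Polynomial.degree_add_le _ _) (max_lt ?_ ?_)
    · rw [Polynomial.degree_X]
      exact_mod_cast (by have := hp.out.two_le; omega : 1 < p)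
    · exact lt_of_le_of_lt Polynomial.degree_C_le (by exact_mod_cast hp0)
  have hdeg : (eqn p (toInf f)).natDegree = p := by
    unfold eqn
    rw [sub_sub]
    refine Polynomial.natDegree_sub_eq_left_of_natDegree_lt ?_ |>.trans
      (Polynomial.natDegree_X_pow p)
    rw [Polynomial.natDegree_X_pow]
    refine lt_of_le_of_lt (Polynomial.natDegree_add_le _ _) ?_
    rw [Polynomial.natDegree_X, Polynomial.natDegree_C]
    have := hp.out.two_le
    simp; omega
  refine ⟨AdjoinRoot.lift Θ w (eval_eqn p (toInf f) Θ w heq), ?_, fun a => by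
    rw [AdjoinRoot.lift_of, hΘa]⟩
  rw [injective_iff_map_eq_zero]
  intro y hy
  obtain ⟨q0, rfl⟩ := AdjoinRoot.mk_surjective y
  set q := q0 %ₘ (eqn p (toInf f)) with hq
  have hmk : AdjoinRoot.mk (eqn p (toInf f)) q0 = AdjoinRoot.mk (eqn p (toInf f)) q := by
    rw [AdjoinRoot.mk_eq_mk]
    refine ⟨q0 /ₘ (eqn p (toInf f)), ?_⟩
    have := Polynomial.modByMonic_add_div q0 (eqn p (toInf f))
    rw [← hq] at this
    linear_combination (-1 : Polynomial (Polynomial (LaurentSeries F))) * this
  have hqd : q.natDegree < p := by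
    have h := Polynomial.natDegree_modByMonic_lt q0 hmonic (by
      intro h
      have h2 := congrArg Polynomial.natDegree h
      rw [hdeg, Polynomial.natDegree_one] at h2
      omega)
    rwa [hdeg] at h
  rw [hmk] at hy ⊢
  rw [AdjoinRoot.lift_mk, Polynomial.eval₂_eq_sum_range' Θ hqd w] at hy
  by_cases hq0 : q = 0
  · rw [hq0, map_zero]
  exfalso
  refine sum_ne_zero (Finset.range p) (fun i => Θ (q.coeff i) * w ^ i) ?_ ?_ hy
  · refine ⟨q.natDegree, Finset.mem_range.2 hqd, mul_ne_zero ?_ (pow_ne_zero _ hw0)⟩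
    exact (hΘord _ (by
      rw [Polynomial.coeff_natDegree]; exact Polynomial.leadingCoeff_ne_zero.2 hq0)).1
  · intro i hi k hk hi0 hk0 hik
    have hi' := Finset.mem_range.1 hi
    have hk' := Finset.mem_range.1 hk
    have ho : ∀ i : ℕ, Θ (q.coeff i) * w ^ i ≠ 0 → ∃ a : ℤ,
        (Θ (q.coeff i) * w ^ i).order = p * a - W.d * i := by
      intro i hne
      have hqi : q.coeff i ≠ 0 := fun h => hne (by rw [h, map_zero, zero_mul])
      obtain ⟨a, ha⟩ := (hΘord _ hqi).2
      refine ⟨a, ?_⟩
      rw [HahnSeries.order_mul (hΘord _ hqi).1 (pow_ne_zero _ hw0), HahnSeries.order_pow, hwo, ha]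
      simp
      ring
    obtain ⟨a, ha⟩ := ho i hi0
    obtain ⟨b, hb⟩ := ho k hk0
    have hik' : (Θ (q.coeff i) * w ^ i).order = (Θ (q.coeff k) * w ^ k).order := hik
    rw [ha, hb] at hik'
    have hdvd : (p : ℤ) ∣ (W.d : ℤ) * ((i : ℤ) - k) := ⟨a - b, by linear_combination (-1) * hik'⟩
    have hpr : Prime (p : ℤ) := Nat.prime_iff_prime_int.1 hp.out
    rcases hpr.dvd_or_dvd hdvd with h | h
    · have := Int.le_of_dvd (by exact_mod_cast hd) h
      omega
    · have := Int.eq_zero_of_abs_lt_dvd h (by rw [abs_lt]; constructor <;> omega)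
      omega

end Pool.Agent.K3h23.AS
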